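import Pool.Agent.V7H37.SN.Classes

/-!
# Small width versus small depth for decomposable circuits

A circuit is decomposable if negations occur only at the inputs and no variable occurs below both arguments
of an AND gate (these circuits are known as DNNFs).  For decomposable circuits the classes are different:

* there are functions with decomposable circuits of polynomial size and depth `O(log² n)` for which
  decomposable layered circuits of width `(log n)^O(1)`, and even `n^(1/16)`, need superpolynomial size;
* the hierarchy of the classes given by polynomial size and width `O((log n)^a)` is infinite.

Both follow from a trade-off: for `1 ≤ W ≤ n^(1/8)` there is a function of `n` variables with decomposable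
circuits of size `n^4` and depth `log n (log W + 1)`, and with layered ones of size `n^4` and width
`2 W log n`, such that layered decomposable circuits of width `w` need size `(W / w)^(log n / 8)`.

The function: given a graph with the levels of a complete binary tree, that is, for every edge `x, x/2` of the
complete binary tree with `m` nodes a relation between labels `< q`, is there a labelling of the nodes by
numbers `< q` which satisfies all these relations?

The proof of the lower bound.  Let `z` be the smallest true input with a given labelling.  At every time `t` the
gates of the `t`-th layer which are used to certify `z` define disjoint sets of edges of the tree.  A node at which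
such a set ends is a border node.  The label of a border node is determined by the gate (mix two inputs at the
gate).  By a median argument in the tree there is a time with `k + 1` border nodes (`2 k + 3` levels).
So each labelling is given by a time, `k + 1` gates of the layer and the labels of the `m - k - 1` other
nodes: `q^m ≤ T w^(k+1) q^(m-k-1)`.
-/

set_option autoImplicit false

namespace Pool.Agent.Results.MP_2af48a_lc.DecomposableCircuitsH37

open Pool.Agent.V7H37.SN

/-- **Width and depth of decomposable circuits.** -/
theorem result :
    (∀ (a : ℕ) (f : Family), (InNC True a f → InNC False a f) ∧ (InSC True a f → InSC False a f)) ∧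
    (∃ f : Family, InNC True 2 f ∧ ∀ a, ¬ InSC True a f) ∧
    (∀ a, ∃ f : Family, InSC True (a + 2) f ∧ ¬ InSC True a f) ∧
    (∀ n W : ℕ, 256 ≤ n → 1 ≤ W → W ^ 8 ≤ n → ∃ f : (Fin n → Bool) → Bool,
      HasCircuit True (n ^ 4) (Nat.log 2 n * (Nat.log 2 W + 1)) f ∧
      (∃ T, HasLayered True T (n ^ 4) (2 * W * Nat.log 2 n) f) ∧
      ∀ T s w, HasLayered True T s w f →
        W ^ (Nat.log 2 n / 8) ≤ s * w ^ (Nat.log 2 n / 8)) :=
  ⟨fun _ _ => ⟨fun ⟨c, h⟩ => ⟨c, fun n => (h n).general⟩,
      fun ⟨c, h⟩ => ⟨c, fun n => (h n).imp fun _ h' => h'.general⟩⟩,
    ⟨famA, famA_NC, famA_not_SC⟩, fun a => ⟨famB a, famB_SC a, famB_not_SC a⟩,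
    fun n W h1 h2 h3 => tradeoff n W h1 h2 h3⟩

end Pool.Agent.Results.MP_2af48a_lc.DecomposableCircuitsH37
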