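import Pool.Agent.V7H42.SC.Classes

/-!
# Small width versus small depth for decomposable circuits

A Boolean circuit with literals at the leaves is decomposable (a circuit in decomposable negation
normal form, DNNF) if the subcircuits of the two inputs of every AND gate have no variable in common.
Layered circuits, width, and the free use of literals and constants in all layers are as in the
definition of non-uniform SC; see `Pool.Agent.V7H42.SC.Defs` and `Pool.Agent.V7H42.SC.Classes` for
all definitions.

Theorem: for decomposable circuits the analogues of non-uniform SC and non-uniform NC are different.
Layered reachability has decomposable circuits of polynomial size and depth `O(log² N)`, but already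
for width `N ^ (1/6)` (in fact for width `n ^ (1 - ε)` if there are `n` vertices in every level)
every layered decomposable circuit for it has `N ^ Ω(log N)` layers.

Idea of the proof of the lower bound.  For every path `P` fix a certificate (a subtree of the circuit
which accepts the input with the edges of `P` only).  If two paths use the same gate then the parts
of the two certificates can be exchanged, by decomposability; so the gate sees the same levels of both
paths, and they pass through the same vertices at the ends of the seen intervals of levels.  The
certificate reads the edge of `P` in each level at some time, at most `2 w` of them at the same time.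
Consider `q`-adic windows of times and dyadic intervals of levels.  If an interval is read in a
window, then each of its two halves is read in one of the `q` parts of the window, or a gate, at one
of the times which separate these parts, determines a vertex inside this half.  As the two halves are
independent this gives the recursion `Z' ≤ (q (Z + w / n)) ^ 2` for the probability of a superset of
the event, so it stays below `w / n` if `4 q ^ 2 w ≤ n`.
-/

set_option autoImplicit false

namespace Pool.Agent.Results.MP_2af48a_lc.DecomposableCircuitsH42

open Pool.Agent.V7H42.SC

/-- **Small width versus small depth for decomposable circuits.**  `Reach n d` is reachability in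
layered graphs with `d + 1` levels of `n` vertices (`d * n ^ 2` variables).
(1) If a layered decomposable circuit of width `w` computes `Reach n d`, and `4 q ^ 2 w ≤ n` and
`2 ^ m (2 w + 1) ≤ d`, then it has more than `q ^ m` layers.
(2) For `n ≤ 2 ^ b`, `Reach n (2 ^ m)` has a layered decomposable circuit with `1 + m (b + 1)` layers
and width `2 ^ m * n ^ 3`.
(3) There is a sequence of Boolean functions which is in the decomposable version of non-uniform NC
(polynomial width, polylogarithmic number of layers), but not in the decomposable version of
non-uniform SC (polynomial number of layers, polylogarithmic width). -/
theorem result :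
    (∀ (n d : ℕ) [NeZero n] (K : Type) [Fintype K] (c : Circuit (Fin d × Fin n × Fin n) K),
      c.Decomposable → c.Computes (Reach n d) → ∀ q m : ℕ, 0 < q →
        4 * q ^ 2 * Fintype.card K ≤ n → 2 ^ m * (2 * Fintype.card K + 1) ≤ d → q ^ m < c.L) ∧
    (∀ (n m b : ℕ) [NeZero n], n ≤ 2 ^ b →
      ∃ (K : Type) (_ : Fintype K) (c : Circuit (Fin (2 ^ m) × Fin n × Fin n) K),
        c.Decomposable ∧ c.Computes (Reach n (2 ^ m)) ∧ c.L = 1 + m * (b + 1) ∧
          Fintype.card K = 2 ^ m * n ^ 3) ∧
    ∃ f : ∀ N : ℕ, (Fin N → Bool) → Prop, DecomposableNC f ∧ ¬ DecomposableSC f := by
  refine ⟨?_, ?_, reachFamily, family_nc, family_not_sc⟩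
  · intro n d _ K _ c hd hc q m hq h1 h2
    exact lower hd hc hq h1 h2
  · intro n m b _ hn
    refine ⟨KU n m, inferInstance, uCirc n m b, u_dec hn, u_comp hn, rfl, ?_⟩
    simp [KU]
    ring

end Pool.Agent.Results.MP_2af48a_lc.DecomposableCircuitsH42
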