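import Mathlib
import Pool.Agent.V7H47.SM.Pack

/-!
# Monotone SC is not contained in monotone NC

The result is a trade-off for monotone circuits. For every `κ` there is a monotone function on `n`
variables which has a layered circuit of width `O(κ ^ 3 log n)` with only `3 n` layers, but every
monotone circuit with at most `2 ^ (κ - 1)` gates that computes it has depth at least
`n / O(κ ^ 8 (log n) ^ 3)`. For `κ = (log n) ^ 2` the width is polylogarithmic and the depth of
every circuit of polynomial size is almost linear, see `separation` below.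

The function is a lifted pebbling function on the cylinder: the vertices are the pairs `(h, s)` of
a height `h ≤ D` and a place `s` of a cycle of length `4 κ + 1`; every vertex has `M` possible
labels, and label `a` of `(h + 1, s)` can be derived from label `b₀` of `(h, s)` and label `b₁` of
`(h, s + 1)` if the input allows this rule; the function asks whether an allowed label of the root
can be derived. The layered circuit computes the derivable labels height by height.

Lower bound: minimal positive inputs are given by labellings `x` of the vertices, maximal negative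
inputs by bits `y (v, a)` that say whether label `a` of `v` is considered true. One walks down the
circuit along gates with value `1` on the labellings of a dense piece (few labels are fixed, and
fixing any further set `S` of labels leaves a fraction `(2 / M) ^ |S|`) and with value `0` on many
strings `y` with prescribed truth values at the fixed labels; an adversary keeps the false vertices
of the piece unblocked and high. In each step one needs a labelling `x` of the piece and a string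
`y` for which the truth values of the labels fixed in the next piece are those chosen by the
adversary; the places depend on `x` in an arbitrary way, and such a pair exists by
hypercontractivity as soon as `M` is a polynomial in `κ` and `log n`. It is important that `M` is
so small: this gives the small width.
-/

set_option autoImplicit false

namespace Pool.Agent.Results.MP_2af48a_lc.MonotoneSCnotNCH47

open Pool.Agent.V7H47.SM

/-- **A trade-off between width and depth for monotone circuits.** For every function `κ ≥ 1` there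
are functions `f n` such that for all `n ≥ 2`:
(1) `f n` is computed by a layered monotone circuit of width at most `2 ^ 14 * κ ^ 3 * log n` with
at most `3 * n` layers;
(2) every monotone circuit of fan-in two with at most `2 ^ (κ - 1)` gates that computes `f n` has
depth at least `n / (2 ^ 37 * κ ^ 8 * (log n) ^ 3)`. -/
theorem trade (κ : ℕ → ℕ) (hκ : ∀ n, 1 ≤ κ n) :
    ∃ f : (n : ℕ) → (Fin n → Bool) → Bool, ∀ n, 2 ≤ n →
      (∃ (w T : ℕ) (L : ℕ → Fin w → Gate (Fin n) (Fin w)) (i : Fin w),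
        w ≤ 2 ^ 14 * κ n ^ 3 * Nat.log 2 n ∧ T ≤ 3 * n ∧ ∀ x, layer x L T i = f n x) ∧
      ∀ (C : List (Gate (Fin n) ℕ)) (o : ℕ), o < C.length → 2 * C.length ≤ 2 ^ κ n →
        (∀ x, (vals x C).getD o false = f n x) →
        n ≤ 2 ^ 37 * κ n ^ 8 * Nat.log 2 n ^ 3 * (depths C).getD o 0 := by
  have h : ∀ n : ℕ, ∃ f : (Fin n → Bool) → Bool, 2 ≤ n →
      (∃ (w T : ℕ) (L : ℕ → Fin w → Gate (Fin n) (Fin w)) (i : Fin w),
        w ≤ 2 ^ 14 * κ n ^ 3 * Nat.log 2 n ∧ T ≤ 3 * n ∧ ∀ x, layer x L T i = f x) ∧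
      ∀ (C : List (Gate (Fin n) ℕ)) (o : ℕ), o < C.length → 2 * C.length ≤ 2 ^ κ n →
        (∀ x, (vals x C).getD o false = f x) →
        n ≤ 2 ^ 37 * κ n ^ 8 * Nat.log 2 n ^ 3 * (depths C).getD o 0 := by
    intro n
    by_cases hn : 2 ≤ n
    · obtain ⟨f, hf⟩ := tradeoff n (κ n) hn (hκ n)
      exact ⟨f, fun _ => hf⟩
    · exact ⟨fun _ => false, fun h => absurd h hn⟩
  choose f hf using h
  exact ⟨f, hf⟩

/-- Monotone non-uniform SC: layered monotone circuits of polylogarithmic width with polynomially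
many layers. -/
def MonoSC (f : (n : ℕ) → (Fin n → Bool) → Bool) : Prop :=
  ∃ c : ℕ, ∀ n, ∃ (w T : ℕ) (L : ℕ → Fin w → Gate (Fin n) (Fin w)) (i : Fin w),
    w ≤ Nat.log 2 n ^ c + c ∧ T ≤ n ^ c + c ∧ ∀ x, layer x L T i = f n x

/-- Monotone non-uniform NC: monotone circuits of polynomial size and polylogarithmic depth. -/
def MonoNC (f : (n : ℕ) → (Fin n → Bool) → Bool) : Prop :=
  ∃ c : ℕ, ∀ n, ∃ (C : List (Gate (Fin n) ℕ)) (o : ℕ), o < C.length ∧ C.length ≤ n ^ c + c ∧
    (depths C).getD o 0 ≤ Nat.log 2 n ^ c + c ∧ ∀ x, (vals x C).getD o false = f n x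

lemma poly_lt_exp (k c : ℕ) : ∃ N, ∀ m, N ≤ m → c * m ^ k < 2 ^ m := by
  have h := tendsto_pow_const_div_const_pow_of_one_lt k (r := (2:ℝ)) (by norm_num)
  have h2 := (h.eventually_lt_const (show (0:ℝ) < 1 / (c + 1) by positivity)).exists_forall_of_atTop
  obtain ⟨N, hN⟩ := h2
  refine ⟨N, fun m hm => ?_⟩
  have h3 := hN m hm
  rw [div_lt_div_iff₀ (by positivity) (by positivity)] at h3
  have h4 : (m:ℝ) ^ k * (c + 1) < 2 ^ m := by linarith
  have h5 : m ^ k * (c + 1) < 2 ^ m := by exact_mod_cast h4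
  have h6 : m ^ k * (c + 1) = c * m ^ k + m ^ k := by ring
  omega

lemma sq_lt_cube {m : ℕ} (hm : 2 ≤ m) : m ^ 2 + 1 ≤ m ^ 3 := by
  have h1 : m ^ 3 = m * m ^ 2 := by ring
  have h2 : 2 * m ^ 2 ≤ m * m ^ 2 := Nat.mul_le_mul_right _ hm
  have h3 : 1 ≤ m ^ 2 := Nat.one_le_pow _ _ (by omega)
  omega

lemma pow_add_le_pow {m c : ℕ} (hm : 2 ≤ m) : m ^ c + c ≤ m ^ (c + 1) := by
  have h1 : c ≤ m ^ c := (Nat.lt_two_pow_self (n := c)).le.trans (Nat.pow_le_pow_left hm c)
  have h2 : m ^ (c + 1) = m ^ c * m := pow_succ _ _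
  have h3 : m ^ c * 2 ≤ m ^ c * m := Nat.mul_le_mul_left _ hm
  omega

lemma size_small {m c s : ℕ} (hmc : 2 * c ≤ m) (hm : 4 ≤ m) (h : s ≤ (2 ^ m) ^ c + c) :
    2 * s ≤ 2 ^ (m ^ 2 + 1) := by
  have h0 : c < 2 ^ m := lt_of_lt_of_le (Nat.lt_two_pow_self (n := c))
    (Nat.pow_le_pow_right (by norm_num) (by omega))
  have h7 : m * c + 2 ≤ m ^ 2 := by
    have h1 : m * (2 * c) ≤ m * m := Nat.mul_le_mul_left _ hmc
    have h2 : 4 * m ≤ m * m := Nat.mul_le_mul_right _ hm
    have h3 : m ^ 2 = m * m := sq m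
    have h4 : m * (2 * c) = 2 * (m * c) := by ring
    omega
  have h8 : m + 2 ≤ m ^ 2 := by
    have h2 : 4 * m ≤ m * m := Nat.mul_le_mul_right _ hm
    have h3 : m ^ 2 = m * m := sq m
    omega
  have h9 : 2 ^ (m * c) ≤ 2 ^ (m ^ 2 - 2) := Nat.pow_le_pow_right (by norm_num) (by omega)
  have h10 : 2 ^ m ≤ 2 ^ (m ^ 2 - 2) := Nat.pow_le_pow_right (by norm_num) (by omega)
  have h11 : 2 ^ (m ^ 2 + 1) = 8 * 2 ^ (m ^ 2 - 2) := by
    rw [show m ^ 2 + 1 = (m ^ 2 - 2) + 3 by omega, pow_add]; ring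
  rw [← pow_mul] at h
  rw [h11]
  omega

/-- **Monotone SC is not contained in monotone NC** (a corollary of the trade-off). -/
theorem separation : ∃ f : (n : ℕ) → (Fin n → Bool) → Bool, MonoSC f ∧ ¬ MonoNC f := by
  obtain ⟨f, hf⟩ := trade (fun n => Nat.log 2 n ^ 2 + 1) (fun n => Nat.le_add_left 1 _)
  refine ⟨fun n => if 2 ≤ n then f n else fun _ => false, ?_, ?_⟩
  · obtain ⟨c, hc1, hc2⟩ : ∃ c : ℕ, 24 ≤ c ∧ 2 ^ 17 ≤ c := ⟨2 ^ 17, by norm_num, le_rfl⟩
    refine ⟨c, fun n => ?_⟩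
    by_cases hn : 2 ≤ n
    · obtain ⟨⟨w, T, L, i, h1, h2, h3⟩, _⟩ := hf n hn
      refine ⟨w, T, L, i, ?_, ?_, fun x => by simp only [hn, if_true]; exact h3 x⟩
      · set m := Nat.log 2 n with hm
        have hm1 : 1 ≤ m := (Nat.le_log_iff_pow_le (by norm_num) (by omega)).mpr (by simpa using hn)
        rcases Nat.lt_or_ge m 2 with hm2 | hm2
        · have : m = 1 := by omega
          rw [this] at h1
          norm_num at h1
          omega
        · have h4 : m ^ 2 + 1 ≤ m ^ 3 := sq_lt_cube hm2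
          have h5 : (m ^ 2 + 1) ^ 3 ≤ (m ^ 3) ^ 3 := Nat.pow_le_pow_left h4 3
          have h6 : 2 ^ 14 ≤ m ^ 14 := Nat.pow_le_pow_left hm2 14
          calc w ≤ 2 ^ 14 * (m ^ 2 + 1) ^ 3 * m := h1
            _ ≤ m ^ 14 * (m ^ 3) ^ 3 * m := Nat.mul_le_mul_right _ (Nat.mul_le_mul h6 h5)
            _ = m ^ 24 := by ring
            _ ≤ m ^ c := Nat.pow_le_pow_right hm1 hc1
            _ ≤ m ^ c + c := Nat.le_add_right _ _
      · calc T ≤ 3 * n := h2
          _ ≤ n ^ 2 * n := Nat.mul_le_mul_right _ (by nlinarith)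
          _ = n ^ 3 := by ring
          _ ≤ n ^ c := Nat.pow_le_pow_right (by omega) (by omega)
          _ ≤ n ^ c + c := Nat.le_add_right _ _
    · exact ⟨1, 0, fun _ _ => .and (.const true) (.const true), 0, by omega, Nat.zero_le _,
        fun x => by simp only [hn, if_false]; rfl⟩
  · rintro ⟨c, hc⟩
    obtain ⟨N, hN⟩ := poly_lt_exp (3 * 8 + 3 + (c + 1)) (2 ^ 37)
    obtain ⟨m, hmN, hmc, hm4⟩ : ∃ m, N ≤ m ∧ 2 * c ≤ m ∧ 4 ≤ m :=
      ⟨N + 2 * c + 4, by omega, by omega, by omega⟩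
    have hn2 : 2 ≤ 2 ^ m := by
      calc 2 = 2 ^ 1 := by norm_num
        _ ≤ 2 ^ m := Nat.pow_le_pow_right (by norm_num) (by omega)
    have hlog : Nat.log 2 (2 ^ m) = m := Nat.log_pow (by norm_num) m
    obtain ⟨C, o, h1, h2, h3, h4⟩ := hc (2 ^ m)
    simp only [hn2, if_true] at h4
    have h5 := (hf (2 ^ m) hn2).2 C o h1 (by rw [hlog]; exact size_small hmc hm4 h2) h4
    rw [hlog] at h5 h3
    have h6 : m ^ 2 + 1 ≤ m ^ 3 := sq_lt_cube (by omega)
    have h7 : m ^ c + c ≤ m ^ (c + 1) := pow_add_le_pow (by omega)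
    have h8 : 2 ^ m ≤ 2 ^ 37 * m ^ (3 * 8 + 3 + (c + 1)) := by
      calc 2 ^ m ≤ 2 ^ 37 * (m ^ 2 + 1) ^ 8 * m ^ 3 * (depths C).getD o 0 := h5
        _ ≤ 2 ^ 37 * (m ^ 3) ^ 8 * m ^ 3 * m ^ (c + 1) :=
          Nat.mul_le_mul (Nat.mul_le_mul_right _ (Nat.mul_le_mul_left _
            (Nat.pow_le_pow_left h6 8))) (h3.trans h7)
        _ = 2 ^ 37 * m ^ (3 * 8 + 3 + (c + 1)) := by rw [← pow_mul, pow_add, pow_add]; ring
    exact absurd h8 (not_le.mpr (hN m hmN))

/-- **The trade-off, and the separation of monotone SC from monotone NC.** -/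
theorem result :
    (∀ κ : ℕ → ℕ, (∀ n, 1 ≤ κ n) →
      ∃ f : (n : ℕ) → (Fin n → Bool) → Bool, ∀ n, 2 ≤ n →
        (∃ (w T : ℕ) (L : ℕ → Fin w → Gate (Fin n) (Fin w)) (i : Fin w),
          w ≤ 2 ^ 14 * κ n ^ 3 * Nat.log 2 n ∧ T ≤ 3 * n ∧ ∀ x, layer x L T i = f n x) ∧
        ∀ (C : List (Gate (Fin n) ℕ)) (o : ℕ), o < C.length → 2 * C.length ≤ 2 ^ κ n →
          (∀ x, (vals x C).getD o false = f n x) →
          n ≤ 2 ^ 37 * κ n ^ 8 * Nat.log 2 n ^ 3 * (depths C).getD o 0) ∧
    ∃ f : (n : ℕ) → (Fin n → Bool) → Bool, MonoSC f ∧ ¬ MonoNC f :=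
  ⟨trade, separation⟩

end Pool.Agent.Results.MP_2af48a_lc.MonotoneSCnotNCH47
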