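import Pool.Agent.V7H66.Wid.Final

/-!
# Constant width, polynomially many layers, and negations

Layered Boolean circuits with AND, OR gates of fan-in two and NOT gates, in which literals and
constants are available at every layer (the circuits of the problem).  By Barrington's theorem
constant width and polynomially many layers suffice for every function in NC^1, in particular for
all threshold functions, if all negated literals may be used.

We prove that constant width and polynomially many layers do not suffice without negations: for
every width `w`, every exponent `A` and all `ε, δ > 0`, for large `N`, if a layered circuit of width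
`w` with at most `N ^ A` layers computes the threshold function `T_k` on `N` inputs, and `M ≥ N ^ δ`
is at most `k - 1`, at most `N + 1 - k` and at most the number of variables that never occur
negated, then the circuit contains more than `M ^ (1 - ε)` NOT gates.
-/

namespace Pool.Agent.Results.MP_2af48a_lc.MonotoneWidthH66

open Finset

/-- Where an input wire of a gate of a layered circuit comes from: a gate of the previous layer,
a literal (`pos = true`: the variable `x_v`, `pos = false`: its negation), or a constant. -/
inductive Src (N w : ℕ) where
  | prev (i : Fin w) : Src N w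
  | lit (v : Fin N) (pos : Bool) : Src N w
  | cst (b : Bool) : Src N w

/-- A gate: AND or OR of two sources, or NOT of one source. -/
inductive Gate (N w : ℕ) where
  | and (a b : Src N w) : Gate N w
  | or (a b : Src N w) : Gate N w
  | not (a : Src N w) : Gate N w

/-- A layered circuit on `N` inputs: `layers` layers (numbered `0, ..., layers - 1`), each with
`w` gates (a circuit of width at most `w` is padded with dummy constant gates), and a designated
output gate `out` in the last layer. -/
structure Circ (N w : ℕ) where
  layers : ℕ
  gate : ℕ → Fin w → Gate N w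
  out : Fin w

/-- value of a source, for the input `x` and the values `s` of the previous layer -/
def Src.val {N w : ℕ} (x : Fin N → Bool) (s : Fin w → Bool) : Src N w → Bool
  | .prev i => s i
  | .lit v true => x v
  | .lit v false => !(x v)
  | .cst b => b

/-- value of a gate -/
def Gate.val {N w : ℕ} (x : Fin N → Bool) (s : Fin w → Bool) : Gate N w → Bool
  | .and a b => a.val x s && b.val x s
  | .or a b => a.val x s || b.val x s
  | .not a => !(a.val x s)

/-- values of the gates of layer `j - 1` (before the first layer all values are `false`) -/
def Circ.state {N w : ℕ} (C : Circ N w) (x : Fin N → Bool) : ℕ → Fin w → Bool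
  | 0 => fun _ => false
  | j + 1 => fun i => (C.gate j i).val x (C.state x j)

/-- output of the circuit -/
def Circ.eval {N w : ℕ} (C : Circ N w) (x : Fin N → Bool) : Bool := C.state x C.layers C.out

/-- being a NOT gate -/
def Gate.isNot {N w : ℕ} : Gate N w → Bool
  | .not _ => true
  | _ => false

/-- the sources read by a gate -/
def Gate.srcs {N w : ℕ} : Gate N w → List (Src N w)
  | .and a b => [a, b]
  | .or a b => [a, b]
  | .not a => [a]

/-- number of NOT gates -/
def Circ.notGates {N w : ℕ} (C : Circ N w) : ℕ :=
  ∑ j ∈ range C.layers, (univ.filter fun i => (C.gate j i).isNot = true).card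

/-- the negated literal of the variable `v` is read by some gate -/
def Circ.Negates {N w : ℕ} (C : Circ N w) (v : Fin N) : Prop :=
  ∃ j < C.layers, ∃ i, Src.lit v false ∈ (C.gate j i).srcs

/-- the threshold function: at least `k` ones -/
def thr {N : ℕ} (k : ℕ) (x : Fin N → Bool) : Bool :=
  decide (k ≤ (univ.filter fun v => x v = true).card)

/-! ### proof -/

/-- variables read by a source -/
def Src.vars {N w : ℕ} : Src N w → Finset (Fin N)
  | .lit v _ => {v}
  | _ => ∅

/-- variables read by a gate -/
def Gate.vars {N w : ℕ} : Gate N w → Finset (Fin N)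
  | .and a b => a.vars ∪ b.vars
  | .or a b => a.vars ∪ b.vars
  | .not a => a.vars

lemma Src.card_vars {N w : ℕ} (a : Src N w) : a.vars.card ≤ 1 := by
  cases a <;> simp [Src.vars]

lemma Gate.card_vars {N w : ℕ} (a : Gate N w) : a.vars.card ≤ 2 := by
  cases a with
  | and a b =>
    exact (Finset.card_union_le _ _).trans (Nat.add_le_add a.card_vars b.card_vars)
  | or a b =>
    exact (Finset.card_union_le _ _).trans (Nat.add_le_add a.card_vars b.card_vars)
  | not a => exact a.card_vars.trans (by norm_num)

lemma Src.val_congr {N w : ℕ} {x y : Fin N → Bool} (s : Fin w → Bool) (a : Src N w)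
    (h : ∀ v ∈ a.vars, x v = y v) : a.val x s = a.val y s := by
  rcases a with i | ⟨v, _ | _⟩ | b
  · rfl
  · simp only [Src.val]; rw [h v (by simp [Src.vars])]
  · simp only [Src.val]; rw [h v (by simp [Src.vars])]
  · rfl

lemma Gate.val_congr {N w : ℕ} {x y : Fin N → Bool} (s : Fin w → Bool) (a : Gate N w)
    (h : ∀ v ∈ a.vars, x v = y v) : a.val x s = a.val y s := by
  cases a with
  | and a b =>
    simp only [Gate.val]
    rw [a.val_congr s fun v hv => h v (Finset.mem_union_left _ hv),
      b.val_congr s fun v hv => h v (Finset.mem_union_right _ hv)]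
  | or a b =>
    simp only [Gate.val]
    rw [a.val_congr s fun v hv => h v (Finset.mem_union_left _ hv),
      b.val_congr s fun v hv => h v (Finset.mem_union_right _ hv)]
  | not a =>
    simp only [Gate.val]
    rw [a.val_congr s h]

lemma Src.val_mono {N w : ℕ} {x y : Fin N → Bool} {s t : Fin w → Bool} (hxy : x ≤ y) (hst : s ≤ t)
    (a : Src N w) (h : ∀ v, a = Src.lit v false → x v = y v) : a.val x s ≤ a.val y t := by
  rcases a with i | ⟨v, _ | _⟩ | b
  · exact hst i
  · simp only [Src.val]; rw [h v rfl]
  · exact hxy v
  · exact le_rfl

lemma Gate.val_mono {N w : ℕ} {x y : Fin N → Bool} {s t : Fin w → Bool} (hxy : x ≤ y) (hst : s ≤ t)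
    (a : Gate N w) (hn : a.isNot = false) (h : ∀ v, Src.lit v false ∈ a.srcs → x v = y v) :
    a.val x s ≤ a.val y t := by
  cases a with
  | and a b =>
    have h1 := a.val_mono hxy hst fun v hv => h v (by simp [Gate.srcs, hv])
    have h2 := b.val_mono hxy hst fun v hv => h v (by simp [Gate.srcs, hv])
    simp only [Gate.val]
    revert h1 h2
    cases a.val x s <;> cases b.val x s <;> cases a.val y t <;> cases b.val y t <;> decide
  | or a b =>
    have h1 := a.val_mono hxy hst fun v hv => h v (by simp [Gate.srcs, hv])
    have h2 := b.val_mono hxy hst fun v hv => h v (by simp [Gate.srcs, hv])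
    simp only [Gate.val]
    revert h1 h2
    cases a.val x s <;> cases b.val x s <;> cases a.val y t <;> cases b.val y t <;> decide
  | not a => simp [Gate.isNot] at hn

/-- **Theorem.**  Fix a width `w`, an exponent `A`, `0 < ε < 1` and `δ > 0`.  For all large `N`:
if a layered circuit of width `w` with at most `N ^ A` layers computes the threshold function
`T_k` on `N` inputs and `M` satisfies `N ^ δ ≤ M`, `M < k`, `M + k ≤ N + 1` and `M` is at most the
number of variables whose negated literal does not occur in the circuit, then the circuit has more
than `M ^ (1 - ε)` NOT gates. -/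
theorem result (w A : ℕ) (ε δ : ℝ) (hε : 0 < ε) (hε1 : ε < 1) (hδ : 0 < δ) :
    ∃ N0 : ℕ, ∀ N ≥ N0, ∀ (C : Circ N w) (k M : ℕ),
      C.layers ≤ N ^ A → (∀ x, C.eval x = thr k x) →
      (N : ℝ) ^ δ ≤ M → M < k → M + k ≤ N + 1 →
      M ≤ Set.ncard {v | ¬ C.Negates v} →
      (M : ℝ) ^ (1 - ε) < C.notGates := by
  classical
  obtain ⟨N0, hN0⟩ := V7H66.Wid.core w A ε δ hε hε1 hδ
  refine ⟨N0, fun N hN C k M hlay hcomp hMδ hMk hMN hMneg => ?_⟩
  have hU : M ≤ (univ.filter fun v => ¬ C.Negates v).card := by
    rw [← Set.ncard_coe_finset]
    simpa using hMneg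
  obtain ⟨Xs, hXs1, hXs2⟩ := Finset.exists_subset_card_eq hU
  have key := hN0 N hN C.layers (fun j x s i => (C.gate j i).val x s)
    (fun j => ∃ i, (C.gate j i).isNot = true)
    (fun j => univ.biUnion fun i => (C.gate j i).vars) Xs (fun _ => false) C.out k hlay
    (by
      intro j _
      refine (Finset.card_biUnion_le_card_mul _ _ 2 fun i _ => (C.gate j i).card_vars).trans ?_
      simp [mul_comm])
    (by
      intro j _ x y hxy s
      funext i
      exact (C.gate j i).val_congr s fun v hv =>
        hxy v (Finset.mem_biUnion.2 ⟨i, Finset.mem_univ i, hv⟩))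
    (by
      intro j hj hspec x y hxy hX s t hst i
      refine (C.gate j i).val_mono hxy hst ?_ ?_
      · by_contra h
        exact hspec ⟨i, by simpa using h⟩
      · intro v hv
        apply hX v
        intro hvX
        exact (Finset.mem_filter.1 (hXs1 hvX)).2 ⟨j, hj, i, hv⟩)
    (by
      intro x
      have hst : ∀ j, V7H66.Wid.run (fun j x s i => (C.gate j i).val x s) x j (fun _ => false) =
          C.state x j := by
        intro j
        induction j with
        | zero => rfl
        | succ j ih =>
          show (fun i => (C.gate j i).val x (V7H66.Wid.run _ x j (fun _ => false))) = _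
          rw [ih]; rfl
      rw [hst]
      exact hcomp x)
    (by rw [hXs2]; exact hMδ) (by rw [hXs2]; exact hMk) (by rw [hXs2]; exact hMN)
  rw [hXs2] at key
  refine lt_of_lt_of_le key ?_
  have : ((range C.layers).filter fun j => ∃ i, (C.gate j i).isNot = true).card ≤ C.notGates := by
    unfold Circ.notGates
    rw [Finset.card_filter]
    refine Finset.sum_le_sum fun j _ => ?_
    split_ifs with h
    · obtain ⟨i, hi⟩ := h
      exact Finset.card_pos.2 ⟨i, by simp [hi]⟩
    · exact Nat.zero_le _
  exact_mod_cast this

end Pool.Agent.Results.MP_2af48a_lc.MonotoneWidthH66
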